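import Pool.Agent.V8H21.MCG.Zar

/-!
# Mapping class groups and algebraic subsets of representation varieties

Let `π` be the fundamental group of a closed orientable surface and let `Hom (π, GL_n (K))` be the set
of its representations of dimension `n` over a field `K`, with its Zariski topology. The automorphisms
of `π` act on it, and the inner ones act by conjugations. We show that every finite orbit of a subgroup
`A` of `Aut (π)` on the algebraic subsets of `Hom (π, GL_n (K))` is of congruence type: there is a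
characteristic subgroup `Γ` of finite index of `π` such that the elements of `A` which act on `π / Γ`
as the inner automorphism of `y` act on the orbit as the inner automorphism of `y`. So the stabilizers
in the mapping class group `Out (π)` of
* characters with a finite orbit,
* irreducible components of `Hom (π, G)` modulo inner automorphisms, for a linear algebraic group `G`,
* conjugation invariant algebraic subsets with a finite orbit
are congruence subgroups.
-/

set_option autoImplicit false

namespace Pool.Agent.Results.MP_59b15d_al.AlgebraicStabilizers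

open Pool.Agent.V8H21.MCG

/-- The definition of the fundamental group `SurfaceGroup g` of the closed orientable surface of genus
`g`: generators `a_i, b_i` (`inl i`, `inr i`) and the relator `rel g = [a_1, b_1] ⋯ [a_g, b_g]`. -/
theorem surfaceGroup_def (g : ℕ) :
    SurfaceGroup g = PresentedGroup ({rel g} : Set (FreeGroup (Fin g ⊕ Fin g))) ∧
      rel g = (List.ofFn (fun i : Fin g =>
        FreeGroup.of (Sum.inl i : Fin g ⊕ Fin g) * FreeGroup.of (Sum.inr i : Fin g ⊕ Fin g) *
        (FreeGroup.of (Sum.inl i : Fin g ⊕ Fin g))⁻¹ *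
        (FreeGroup.of (Sum.inr i : Fin g ⊕ Fin g))⁻¹)).prod := ⟨rfl, rfl⟩

/-- The representations of dimension `n` over `K`. -/
abbrev Rep (g : ℕ) (K : Type) [Field K] (n : ℕ) : Type :=
  SurfaceGroup g →* Matrix.GeneralLinearGroup (Fin n) K

variable {g : ℕ} {K : Type} [Field K] {n : ℕ}

/-- The entries of the matrices `x w`, for `w` in the surface group. -/
def entries (x : Rep g K n) (u : SurfaceGroup g × Fin n × Fin n) : K :=
  (x u.1 : Matrix (Fin n) (Fin n) K) u.2.1 u.2.2

/-- `Z` is an algebraic (Zariski closed) set: the set of common zeros of a set of polynomials in the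
entries. -/
def IsAlgebraic (Z : Set (Rep g K n)) : Prop :=
  ∃ F : Set (MvPolynomial (SurfaceGroup g × Fin n × Fin n) K),
    ∀ x, x ∈ Z ↔ ∀ P ∈ F, MvPolynomial.eval (entries x) P = 0

/-- `Z` is an irreducible algebraic set. -/
def IsIrreducibleSet (Z : Set (Rep g K n)) : Prop :=
  IsAlgebraic Z ∧ Z.Nonempty ∧
    ∀ Z₁ Z₂, IsAlgebraic Z₁ → IsAlgebraic Z₂ → Z ⊆ Z₁ ∪ Z₂ → Z ⊆ Z₁ ∨ Z ⊆ Z₂

/-- `Z` is an irreducible component of `V`: a maximal irreducible algebraic subset. -/
def IsComponent (V Z : Set (Rep g K n)) : Prop :=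
  IsIrreducibleSet Z ∧ Z ⊆ V ∧ ∀ Z', IsIrreducibleSet Z' → Z' ⊆ V → Z ⊆ Z' → Z' ⊆ Z

/-- The action of an automorphism `φ` on sets of representations: the inverse image under
`x ↦ x ∘ φ`. -/
def pullback (φ : MulAut (SurfaceGroup g)) (Z : Set (Rep g K n)) : Set (Rep g K n) :=
  {x | x.comp φ.toMonoidHom ∈ Z}

/-- `φ` acts modulo `Γ` as the inner automorphism of `y`. -/
def InnerBy (Γ : Subgroup (SurfaceGroup g)) (φ : MulAut (SurfaceGroup g)) (y : SurfaceGroup g) :
    Prop :=
  ∀ x : SurfaceGroup g, φ x * (y * x * y⁻¹)⁻¹ ∈ Γ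

/-- The representations with values in the matrices at which the polynomials in `F` vanish. If these
matrices are a subgroup `G`, a linear algebraic group, this is the set `Hom (π, G)`. -/
def HomTo (g : ℕ) (F : Set (MvPolynomial (Fin n × Fin n) K)) : Set (Rep g K n) :=
  {x | ∀ w, ∀ P ∈ F, MvPolynomial.eval
    (fun u : Fin n × Fin n => (x w : Matrix (Fin n) (Fin n) K) u.1 u.2) P = 0}

/-- The character of a representation. -/
def character (x : Rep g K n) (w : SurfaceGroup g) : K :=
  Matrix.trace (x w : Matrix (Fin n) (Fin n) K)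

theorem main (X : Set (Set (Rep g K n))) (hX : X.Finite) (hXa : ∀ Z ∈ X, IsAlgebraic Z)
    (hXc : ∀ Z ∈ X, ∀ y, pullback (MulAut.conj y) Z ∈ X) :
    ∃ Γ : Subgroup (SurfaceGroup g), Γ.Characteristic ∧ Γ.FiniteIndex ∧
      ∀ φ y, InnerBy Γ φ y → (∀ Z ∈ X, pullback φ Z ∈ X) →
        ∀ Z ∈ X, pullback φ Z = pullback (MulAut.conj y) Z := by
  have := surface_fg g
  obtain ⟨Γ, hΓ, h⟩ := alg_fixed X hX hXa
  refine ⟨cker _ Γ.index, inferInstance, inferInstance, ?_⟩
  intro φ y hφ hXφ Z hZ
  have hle : cker (SurfaceGroup g) Γ.index ≤ Γ := cker_le Γ hΓ.index_ne_zero le_rfl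
  have h1 : ∀ x, ((MulAut.conj y)⁻¹ * φ) x * x⁻¹ ∈ Γ := by
    intro x
    have h2 : ((MulAut.conj y)⁻¹ * φ) x * x⁻¹ = y⁻¹ * (φ x * (y * x * y⁻¹)⁻¹) * y⁻¹⁻¹ := by
      rw [MulAut.mul_apply, MulAut.conj_inv_apply]
      group
    rw [h2]
    exact hle (Subgroup.Normal.conj_mem inferInstance _ (hφ x) _)
  have h3 := h ((MulAut.conj y)⁻¹ * φ) h1 (by
    intro Z hZ
    rw [pull_pull, ← map_inv]
    exact hXc _ (hXφ Z hZ) _) Z hZ
  show pull φ Z = pull (MulAut.conj y) Z
  conv_rhs => rw [← h3]
  rw [← pull_pull, mul_inv_cancel_left]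

theorem isAlgebraic_homTo (F : Set (MvPolynomial (Fin n × Fin n) K)) :
    IsAlgebraic (HomTo g F) := by
  refine ⟨{Q | ∃ w : SurfaceGroup g, ∃ P ∈ F,
    Q = MvPolynomial.rename (fun u : Fin n × Fin n => (w, u)) P}, fun x => ?_⟩
  constructor
  · rintro h Q ⟨w, P, hP, rfl⟩
    rw [MvPolynomial.eval_rename]
    exact h w P hP
  · intro h w P hP
    have h1 := h _ ⟨w, P, hP, rfl⟩
    rw [MvPolynomial.eval_rename] at h1
    exact h1

theorem homTo_pullback (F : Set (MvPolynomial (Fin n × Fin n) K)) (φ : MulAut (SurfaceGroup g)) :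
    pullback φ (HomTo g F) = HomTo g F := by
  ext x
  constructor
  · intro h w P hP
    have h1 := h (φ⁻¹ w) P hP
    have h2 : (x.comp φ.toMonoidHom) (φ⁻¹ w) = x w := by
      show x (φ (φ⁻¹ w)) = x w
      rw [MulAut.apply_inv_self]
    rw [h2] at h1
    exact h1
  · intro h w P hP
    exact h (φ w) P hP

/-- There is a characteristic subgroup `Γ` of finite index of the surface group such that, if `φ` is
good and acts on the quotient by `Γ` as the inner automorphism of `y`, then `φ` and this inner
automorphism have the same action on the sets in `X`. -/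
def ActsCongruently (good : MulAut (SurfaceGroup g) → Prop) (X : Set (Set (Rep g K n))) : Prop :=
  ∃ Γ : Subgroup (SurfaceGroup g), Γ.Characteristic ∧ Γ.FiniteIndex ∧
    ∀ φ y, InnerBy Γ φ y → good φ → ∀ Z ∈ X, pullback φ Z = pullback (MulAut.conj y) Z

/-- Finite sets `X` of algebraic sets. -/
def FiniteSets : Prop :=
  ∀ (g : ℕ) (K : Type) [Field K] (n : ℕ) (X : Set (Set (Rep g K n))), X.Finite →
    (∀ Z ∈ X, IsAlgebraic Z) → (∀ Z ∈ X, ∀ y, pullback (MulAut.conj y) Z ∈ X) →
    ActsCongruently (fun φ => ∀ Z ∈ X, pullback φ Z ∈ X) X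

/-- Irreducible components of algebraic sets. -/
def Components : Prop :=
  ∀ (g : ℕ) (K : Type) [Field K] (n : ℕ) (V : Set (Rep g K n)), IsAlgebraic V →
    (∀ y, pullback (MulAut.conj y) V = V) →
    {Z | IsComponent V Z}.Finite ∧
    ActsCongruently (fun φ => pullback φ V = V) {Z | IsComponent V Z}

/-- Irreducible components of `Hom (π, G)`. -/
def AlgebraicGroups : Prop :=
  ∀ (g : ℕ) (K : Type) [Field K] (n : ℕ) (F : Set (MvPolynomial (Fin n × Fin n) K)),
    ActsCongruently (fun _ => True) {Z | IsComponent (HomTo g F) Z}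

/-- Algebraic sets with a finite orbit. -/
def FiniteOrbits : Prop :=
  ∀ (g : ℕ) (K : Type) [Field K] (n : ℕ) (A : Subgroup (MulAut (SurfaceGroup g)))
    (Z : Set (Rep g K n)), (∀ y, MulAut.conj y ∈ A) → IsAlgebraic Z →
    {Z' | ∃ a ∈ A, Z' = pullback a Z}.Finite →
    ActsCongruently (fun φ => φ ∈ A) {Z' | ∃ a ∈ A, Z' = pullback a Z}

/-- Finite sets of characters. -/
def Characters : Prop :=
  ∀ (g : ℕ) (K : Type) [Field K] (n : ℕ) (T : Set (SurfaceGroup g → K)), T.Finite →
    (∀ χ ∈ T, ∃ x : Rep g K n, character x = χ) →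
    ∃ Γ : Subgroup (SurfaceGroup g), Γ.Characteristic ∧ Γ.FiniteIndex ∧
      ∀ φ : MulAut (SurfaceGroup g), (∃ y, InnerBy Γ φ y) → (∀ χ ∈ T, (fun w => χ (φ w)) ∈ T) →
        ∀ χ ∈ T, (fun w => χ (φ w)) = χ

/-- Let `g, n` be natural numbers, `K` a field and `π` the fundamental group of the closed orientable
surface of genus `g`.

(1) A finite set `X` of algebraic subsets of `Hom (π, GL_n (K))` permuted by the inner automorphisms
has a characteristic subgroup `Γ` of finite index of `π` such that each automorphism `φ` of `π` which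
permutes `X` and acts on `π / Γ` as the inner automorphism of `y` acts on `X` like it.

(2) The same for the irreducible components of an algebraic subset `V` with `c_y^* V = V` for all `y`,
and the `φ` with `φ^* V = V`.

(3) The irreducible components of `Hom (π, G)` for a linear algebraic group `G`: here all
automorphisms are allowed.

(4) The orbit of an algebraic subset `Z` under a subgroup `A` of `Aut (π)` containing the inner
automorphisms, if it is finite.

(5) Finite sets of characters of representations of dimension `n`: the automorphisms which are inner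
modulo `Γ` and permute the set fix all its elements. -/
theorem result : FiniteSets ∧ Components ∧ AlgebraicGroups ∧ FiniteOrbits ∧ Characters := by
  have hcomp : Components := by
    intro g K _ n V hV hVc
    have := surface_fg g
    have hf : {Z | IsComponent V Z}.Finite := finite_comp V hV
    refine ⟨hf, ?_⟩
    obtain ⟨Γ, h1, h2, h3⟩ := main {Z | IsComponent V Z} hf (fun Z hZ => hZ.1.1)
      (fun Z hZ y => isComp_pull (MulAut.conj y) (hVc y) hZ)
    exact ⟨Γ, h1, h2, fun φ y hφ hφV Z hZ => h3 φ y hφ
      (fun Z hZ => isComp_pull φ hφV hZ) Z hZ⟩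
  refine ⟨fun g K _ n X hX hXa hXc => main X hX hXa hXc, hcomp, ?_, ?_, ?_⟩
  · intro g K _ n F
    obtain ⟨-, Γ, h1, h2, h3⟩ := hcomp g K n (HomTo g F) (isAlgebraic_homTo F)
      (fun y => homTo_pullback F _)
    exact ⟨Γ, h1, h2, fun φ y hφ _ => h3 φ y hφ (homTo_pullback F φ)⟩
  · intro g K _ n A Z hA hZ hfin
    have hstep : ∀ a ∈ A, ∀ Z', (∃ b ∈ A, Z' = pullback b Z) → ∃ b ∈ A, pullback a Z' = pullback b Z := by
      rintro a ha Z' ⟨b, hb, rfl⟩
      exact ⟨a * b, A.mul_mem ha hb, (pull_pull a b Z).symm⟩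
    obtain ⟨Γ, h1, h2, h3⟩ := main {Z' | ∃ a ∈ A, Z' = pullback a Z} hfin
      (by
        rintro Z' ⟨a, ha, rfl⟩
        exact isAlg_pull a hZ)
      (fun Z' hZ' y => hstep _ (hA y) Z' hZ')
    exact ⟨Γ, h1, h2, fun φ y hy hφ => h3 φ y hy (fun Z' hZ' => hstep φ hφ Z' hZ')⟩
  · intro g K _ n T hT hTx
    -- the fibres of the character map
    let fib : (SurfaceGroup g → K) → Set (Rep g K n) := fun χ => {x | character x = χ}
    have hfa : ∀ χ, IsAlgebraic (fib χ) := by
      intro χ
      refine ⟨{Q | ∃ w : SurfaceGroup g, Q = (∑ i : Fin n, MvPolynomial.X (w, i, i)) -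
        MvPolynomial.C (χ w)}, fun x => ?_⟩
      have hev : ∀ w, MvPolynomial.eval (entries x) ((∑ i : Fin n, MvPolynomial.X (w, i, i)) -
          MvPolynomial.C (χ w)) = character x w - χ w := by
        intro w
        rw [map_sub, map_sum, MvPolynomial.eval_C]
        congr 1
        refine Finset.sum_congr rfl fun i _ => ?_
        rw [MvPolynomial.eval_X]
        rfl
      constructor
      · rintro h Q ⟨w, rfl⟩
        rw [hev, sub_eq_zero]
        exact congrFun h w
      · intro h
        funext w
        have h1 := h _ ⟨w, rfl⟩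
        rw [hev, sub_eq_zero] at h1
        exact h1
    have hpf : ∀ (φ : MulAut (SurfaceGroup g)) χ, pullback φ (fib (fun w => χ (φ w))) = fib χ := by
      intro φ χ
      ext x
      show (character (x.comp φ.toMonoidHom) = fun w => χ (φ w)) ↔ character x = χ
      constructor
      · intro h
        funext w
        have h1 := congrFun h (φ⁻¹ w)
        have h2 : character (x.comp φ.toMonoidHom) (φ⁻¹ w) = character x w := by
          show Matrix.trace (x (φ (φ⁻¹ w)) : Matrix (Fin n) (Fin n) K) = _
          rw [MulAut.apply_inv_self]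
          rfl
        have h3 : χ (φ (φ⁻¹ w)) = χ w := by rw [MulAut.apply_inv_self]
        rw [← h2, h1]
        exact h3
      · intro h
        funext w
        exact congrFun h (φ w)
    have hconj : ∀ (y : SurfaceGroup g) χ, pullback (MulAut.conj y) (fib χ) = fib χ := by
      intro y χ
      have h : ∀ x : Rep g K n, character (x.comp (MulAut.conj y).toMonoidHom) = character x := by
        intro x
        funext w
        show Matrix.trace (x (y * w * y⁻¹) : Matrix (Fin n) (Fin n) K) = _
        rw [map_mul, map_mul, Units.val_mul, Matrix.trace_mul_comm, ← Units.val_mul, ← mul_assoc,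
          map_inv, inv_mul_cancel, one_mul]
        rfl
      ext x
      show character (x.comp (MulAut.conj y).toMonoidHom) = χ ↔ character x = χ
      rw [h x]
    obtain ⟨Γ, h1, h2, h3⟩ := main (fib '' T) (hT.image _)
      (by
        rintro Z ⟨χ, -, rfl⟩
        exact hfa χ)
      (by
        rintro Z ⟨χ, hχ, rfl⟩ y
        exact ⟨χ, hχ, (hconj y χ).symm⟩)
    refine ⟨Γ, h1, h2, ?_⟩
    rintro φ ⟨y, hy⟩ hφT χ hχ
    have hperm : ∀ Z ∈ fib '' T, pullback φ Z ∈ fib '' T := by
      rintro Z ⟨χ', hχ', rfl⟩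
      have hfinT : Finite T := hT
      let f : T → T := fun c => ⟨fun w => c.1 (φ w), hφT c.1 c.2⟩
      have hf : Function.Injective f := by
        intro c c' hc
        apply Subtype.ext
        funext w
        have h4 := congrFun (congrArg Subtype.val hc) (φ⁻¹ w)
        have h5 : c.1 (φ (φ⁻¹ w)) = c'.1 (φ (φ⁻¹ w)) := h4
        rwa [MulAut.apply_inv_self] at h5
      obtain ⟨c, hc⟩ := Finite.surjective_of_injective hf ⟨χ', hχ'⟩
      refine ⟨c.1, c.2, ?_⟩
      have h6 : (fun w => c.1 (φ w)) = χ' := congrArg Subtype.val hc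
      rw [← h6, hpf]
    have h4 := h3 φ y hy hperm (fib (fun w => χ (φ w))) ⟨_, hφT χ hχ, rfl⟩
    rw [hpf, hconj] at h4
    obtain ⟨x, hx⟩ := hTx χ hχ
    have h5 : x ∈ fib χ := hx
    rw [h4] at h5
    have h6 : character x = fun w => χ (φ w) := h5
    rw [← h6, hx]

end Pool.Agent.Results.MP_59b15d_al.AlgebraicStabilizers
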