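import Pool.Agent.V8H98.JF.Fin2
import Pool.Agent.V8H98.JF.M2
import Pool.Agent.V8H98.JF.Vst

/-!
# The congruence subgroup problem for mapping class groups and the homology of the double covers

Let `π` be the fundamental group of the closed orientable surface `S` of genus `g`, and
`Mod_S = Out (π)`. The subgroups of `Mod_S` correspond to the subgroups of `Aut (π)` containing the
inner automorphisms.

Let `Γ = π² [π, π]` be the kernel of `π → H_1 (S; ℤ / 2)` and let `g ≥ 4`. We prove that a subgroup `V`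
of finite index of `Mod_S` contains a congruence subgroup as soon as the intersection of `V` with the
group `J_c` of the mapping classes acting trivially on `π / γ_{c+1} (Γ)` contains the intersection of
`J_c` with a congruence subgroup, for some `c`, which may be arbitrarily large. So the congruence
subgroup problem for `Mod_S` is reduced to the groups `J_c`, which are much smaller than the Torelli
group and the Johnson filtration: the Torelli group acts on `Γ / [Γ, Γ]` through a group which contains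
a congruence subgroup of a product of `2^{2g} - 1` copies of `Sp_{2g-2} (ℤ)`.

In fact we first reduce to the group `D ≤ Aut (π)` of the automorphisms which act trivially on
`Γ' / [Γ', Γ']` for all subgroups `Γ'` of index at most two, that is on the first homology of `S` and of
all double covers of `S`; then to the elements of `D` acting trivially on `π / γ_{c_i+1} (Γ_i)` for
finitely many subgroups `Γ_i` of finite index on whose abelianizations `D` is virtually solvable.

For `g ≥ 3` the same is proved with the Torelli group in place of `D` and `π` in place of `Γ` (the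
Johnson filtration). The results hold for all subgroups `A` of `Mod_S` for which `A D` has finite
index, respectively for which the image of `A` in the automorphisms of `H_1 (S)` has finite index.

The proof. The main ingredients are
* the congruence subgroup property of `Sp_{2n} (ℤ)`, `n ≥ 3` (Mennicke, Bass, Milnor, Serre), in a
  form for not necessarily finite index subgroups (`Pool.Agent.V8H98.JF.csp_sp'`), proved here from
  the theorem for `SL_3 (ℤ)`;
* explicit Dehn twists and bounding pair maps as automorphisms of `π`, the generation of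
  `Sp_{2n} (ℤ)` by transvections;
* the Prym representation `Stab (χ) → GL_{2g-2} (ℤ)` given by the crossed homomorphisms
  `π → ℤ^{2g-2}` for a character `χ` of order two (`psi`), it preserves the symplectic form up to
  sign (`pm2`) and contains `Sp_{2g-2} (ℤ)` in its image;
* the independence of the Prym representations (`big_T0`): for every double cover the group of the
  elements of the Torelli group which act trivially on the homology of all other double covers has
  an image containing a congruence subgroup of `Sp_{2g-2} (ℤ)`;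
* the congruence property modulo the lower central series of finite covers
  (`Pool.Agent.V8H98.CHV.csp_main`).
-/

set_option autoImplicit false

namespace Pool.Agent.Results.MP_59b15d_al.DoubleCovers

open scoped commutatorElement
open Pool.Agent.V8H98.JF (SurfaceGroup cls rho DD mem_DD cls_eq_zero_iff rho_cls Mod2)

section

variable {G : Type} [Group G]

/-- `φ` acts on `Γ / [Γ, Γ]` as the conjugation by an element of `G`. -/
def InnerOnAb (Γ : Subgroup G) (φ : MulAut G) : Prop :=
  ∃ g : G, ∀ x ∈ Γ, φ x * (g * x * g⁻¹)⁻¹ ∈ (⁅Γ, Γ⁆ : Subgroup G)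

/-- `A` has a subgroup `E` of finite index, and a number `n`, such that the `n`-th derived subgroup
of `E` acts on `Γ / [Γ, Γ]` by conjugations by elements of `G`. -/
def VirtuallySolvableOn (A : Subgroup (MulAut G)) (Γ : Subgroup G) : Prop :=
  ∃ E : Subgroup A, E.FiniteIndex ∧ ∃ n : ℕ, ∀ d ∈ derivedSeries E n, InnerOnAb Γ (d : A).1

/-- `φ` acts trivially modulo `K`. -/
def TrivialMod (K : Subgroup G) (φ : MulAut G) : Prop :=
  ∀ x : G, φ x * x⁻¹ ∈ K

/-- `φ` acts as an inner automorphism modulo `K`. -/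
def InnerMod (K : Subgroup G) (φ : MulAut G) : Prop :=
  ∃ g : G, ∀ x : G, φ x * (g * x * g⁻¹)⁻¹ ∈ K

/-- `V` contains, for some characteristic subgroup `K` of finite index of `G`, all elements of `A`
which act trivially modulo `K`; if `V` contains the inner automorphisms, also all elements of `A` which
act as an inner automorphism modulo `K`. -/
def ContainsCongruence (A V : Subgroup (MulAut G)) : Prop :=
  ∃ K : Subgroup G, K.Characteristic ∧ K.FiniteIndex ∧ (∀ a ∈ A, TrivialMod K a → a ∈ V) ∧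
    ((∀ x, MulAut.conj x ∈ V) → ∀ a ∈ A, InnerMod K a → a ∈ V)

/-- Every subgroup `V` of finite index of `A` which contains, for some characteristic subgroup `K₁` of
finite index of `G`, all elements of `N` which act trivially modulo `R` and modulo `K₁`, is a congruence
subgroup in the sense of `ContainsCongruence`. -/
def ReducesTo (A N : Subgroup (MulAut G)) (R : Subgroup G) : Prop :=
  ∀ V ≤ A, (V.subgroupOf A).FiniteIndex →
    ∀ K₁ : Subgroup G, K₁.Characteristic → K₁.FiniteIndex →
      (∀ a ∈ N, TrivialMod R a → TrivialMod K₁ a → a ∈ V) → ContainsCongruence A V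

/-- `φ` acts trivially on `G / Γ` and on `Γ / [Γ, Γ]`. -/
def TorelliLike (Γ : Subgroup G) (φ : MulAut G) : Prop :=
  (∀ x, φ x * x⁻¹ ∈ Γ) ∧ ∀ x ∈ Γ, φ x * x⁻¹ ∈ (⁅Γ, Γ⁆ : Subgroup G)

/-- The group generated by the automorphisms acting trivially on `G / Γ_i` and on
`Γ_i / [Γ_i, Γ_i]` for all `i`, the inner automorphisms and `φ`. -/
def TorelliAnd {I : Type} (Γ : I → Subgroup G) (φ : MulAut G) : Subgroup (MulAut G) :=
  Subgroup.closure ({a | ∀ i, TorelliLike (Γ i) a} ∪ {a | ∃ x, a = MulAut.conj x} ∪ {φ})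

/-- For every finite family of normal subgroups `Γ i` of finite index of `G`, on whose
abelianizations `N` is virtually solvable, and all `c i`: the congruence subgroup property of `A`
reduces to the elements of `N` acting trivially modulo the intersection of the terms
`γ_{c_i + 1} (Γ i)` of the lower central series. -/
def ReducesToAll (A N : Subgroup (MulAut G)) : Prop :=
  ∀ (I : Type) [Finite I] (Γ : I → Subgroup G), (∀ i, (Γ i).Normal) →
    (∀ i, (Γ i).FiniteIndex) → (∀ i, VirtuallySolvableOn N (Γ i)) →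
    ∀ c : I → ℕ, ReducesTo A N (⨅ i, (Γ i).lowerCentralSeries (c i))

/-- For every finite family of normal subgroups `Γ i` of finite index of `G`, every automorphism `φ`
of `G` with `φ (Γ i) = Γ i` for all `i`, and all `c i`: the congruence subgroup property of the group
generated by the automorphisms acting trivially on `G / Γ i` and `Γ i / [Γ i, Γ i]` for all `i`, the
inner automorphisms and `φ`, reduces to its elements acting trivially modulo the intersection of the
terms `γ_{c_i + 1} (Γ i)`. -/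
def GeneratedCase (G : Type) [Group G] : Prop :=
  ∀ (I : Type) [Finite I] (Γ : I → Subgroup G), (∀ i, (Γ i).Normal) →
    (∀ i, (Γ i).FiniteIndex) → ∀ φ : MulAut G, (∀ i, (Γ i).map φ.toMonoidHom = Γ i) →
    ∀ c : I → ℕ, ReducesTo (TorelliAnd Γ φ) (TorelliAnd Γ φ)
      (⨅ i, (Γ i).lowerCentralSeries (c i))

theorem toVS {A : Subgroup (MulAut G)} {Γ : Subgroup G} (h : VirtuallySolvableOn A Γ) :
    V8H98.CHV.VS A.subtype Γ := by
  obtain ⟨E, hE, n, hn⟩ := h
  refine ⟨E, hE, n, fun d hd => ?_⟩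
  rw [V8H98.CHV.dser_eq] at hd
  obtain ⟨d, hd, rfl⟩ := hd
  exact hn d hd

/-- the elements of `N` acting trivially modulo `R` and `K₁` control the subgroups of finite index
of `N` -/
theorem key [Group.FG G] {I : Type} [Finite I] (Γ : I → Subgroup G)
    (hn : ∀ i, (Γ i).Normal) (hf : ∀ i, (Γ i).FiniteIndex) (N : Subgroup (MulAut G))
    (hN : ∀ i, V8H98.CHV.VS N.subtype (Γ i)) (c : I → ℕ) (K₁ : Subgroup G)
    (h1 : K₁.Characteristic) (h2 : K₁.FiniteIndex) (W : Subgroup N) (hW : W.FiniteIndex)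
    (h : ∀ a : N, TrivialMod (⨅ i, (Γ i).lowerCentralSeries (c i)) a.1 → TrivialMod K₁ a.1 → a ∈ W) :
    ∃ K : Subgroup G, K.Characteristic ∧ K.FiniteIndex ∧ ∀ a : N, TrivialMod K a.1 → a ∈ W := by
  set S := R569.CS.act N.subtype K₁ with hS
  obtain ⟨K, h3, h4, h5⟩ := V8H98.CHV.csp_main Γ hn hf c (N.subtype.comp S.subtype)
    (fun i => (hN i).sub S) (W.comap S.subtype) (R569.CS.fi_comap _ _)
    (fun a ha => h a.1 ha a.2)
  refine ⟨K ⊓ K₁, inferInstance, inferInstance, fun a ha => ?_⟩
  exact h5 (show (⟨a, fun x => (ha x).2⟩ : S) ∈ R569.CS.act (N.subtype.comp S.subtype) K from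
    fun x => (ha x).1)

/-- the second clause of `ContainsCongruence` follows from the first -/
theorem contains_of {A V : Subgroup (MulAut G)} (hVA : V ≤ A) {K : Subgroup G}
    (h1 : K.Characteristic) (h2 : K.FiniteIndex) (h3 : ∀ a ∈ A, TrivialMod K a → a ∈ V) :
    ContainsCongruence A V := by
  refine ⟨K, h1, h2, h3, fun hI a haA ⟨g, hg⟩ => ?_⟩
  have h4 : TrivialMod K ((MulAut.conj g)⁻¹ * a) := by
    intro x
    have h5 : ((MulAut.conj g)⁻¹ * a : MulAut G) x * x⁻¹ =
        (MulAut.conj g)⁻¹ (a x * (g * x * g⁻¹)⁻¹) := by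
      rw [MulAut.mul_apply, map_mul, map_inv, MulAut.conj_inv_apply, MulAut.conj_inv_apply]
      group
    rw [h5]
    exact Subgroup.characteristic_iff_le_comap.1 h1 ((MulAut.conj g)⁻¹) (hg x)
  have h6 := V.mul_mem (hI g) (h3 _ (A.mul_mem (A.inv_mem (hVA (hI g))) haA) h4)
  rwa [mul_inv_cancel_left] at h6

/-- from the reduction to `N` to the reduction to the elements of `N` acting trivially modulo `R` -/
theorem reducesTo_of [Group.FG G] {N A : Subgroup (MulAut G)} (hNA : N ≤ A)
    (hred : ∀ V : Subgroup A, V.FiniteIndex →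
      (∃ K₁ : Subgroup G, K₁.Characteristic ∧ K₁.FiniteIndex ∧
        ∀ a : A, a.1 ∈ N → TrivialMod K₁ a.1 → a ∈ V) →
      ∃ K : Subgroup G, K.Characteristic ∧ K.FiniteIndex ∧ ∀ a : A, TrivialMod K a.1 → a ∈ V)
    {I : Type} [Finite I] (Γ : I → Subgroup G)
    (hn : ∀ i, (Γ i).Normal) (hf : ∀ i, (Γ i).FiniteIndex)
    (hN : ∀ i, V8H98.CHV.VS N.subtype (Γ i)) (c : I → ℕ) :
    ReducesTo A N (⨅ i, (Γ i).lowerCentralSeries (c i)) := by
  intro V hVA hV K₁ h1 h2 h3
  have hW : ((V.subgroupOf A).comap (Subgroup.inclusion hNA)).FiniteIndex :=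
    R569.CS.fi_comap _ _
  obtain ⟨K₂, h4, h5, h6⟩ := key Γ hn hf N hN c K₁ h1 h2
    ((V.subgroupOf A).comap (Subgroup.inclusion hNA)) hW (fun a ha ha' => h3 a.1 a.2 ha ha')
  obtain ⟨K, h7, h8, h9⟩ := hred (V.subgroupOf A) hV
    ⟨K₂, h4, h5, fun a ha ha' => h6 ⟨a.1, ha⟩ ha'⟩
  exact contains_of hVA h7 h8 (fun a ha ha' => h9 ⟨a, ha⟩ ha')

/-- The image of a subgroup of finite index of `A` in the quotient by `D`. -/
theorem sup_fi {A D : Subgroup (MulAut G)} [D.Normal] (hA : (A ⊔ D).FiniteIndex) (B : Subgroup A)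
    (hB : B.FiniteIndex) : (B.map A.subtype ⊔ D).FiniteIndex := by
  set q := QuotientGroup.mk' D with hq
  have hr : q.range = ⊤ := MonoidHom.range_eq_top.2 (QuotientGroup.mk'_surjective D)
  have hk : q.ker = D := QuotientGroup.ker_mk' D
  have hidx : ∀ H : Subgroup (MulAut G), (H.map q).index = (H ⊔ D).index := by
    intro H
    rw [Subgroup.index_map, hr, Subgroup.index_top, mul_one, hk]
  have h1 := V8H98.JF.map_fin (q.comp A.subtype) B hB
  have h2 : (q.comp A.subtype).range = A.map q := by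
    rw [MonoidHom.range_comp, Subgroup.range_subtype]
  rw [h2] at h1
  have h3 : B.map (q.comp A.subtype) = (B.map A.subtype).map q := by
    rw [Subgroup.map_map]
  rw [h3] at h1
  have h4 : (B.map A.subtype).map q ≤ A.map q := by
    apply Subgroup.map_mono
    rintro _ ⟨x, -, rfl⟩
    exact x.2
  have h5 := Subgroup.relIndex_mul_index h4
  constructor
  rw [← hidx, ← h5, hidx]
  exact mul_ne_zero h1 hA.index_ne_zero

/-- from the subgroups of finite index of `Aut (G)` containing `D` to subgroups `A` such that `A D` has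
finite index -/
theorem sup_red {A D : Subgroup (MulAut G)} [D.Normal] [Group.FG G]
    (hcsp : ∀ W : Subgroup (MulAut G), W.FiniteIndex → D ≤ W →
      ∃ K : Subgroup G, K.Characteristic ∧ K.FiniteIndex ∧ ∀ a, TrivialMod K a → a ∈ W)
    (hA : (A ⊔ D).FiniteIndex) (V : Subgroup A) (hV : V.FiniteIndex)
    (h : ∃ K₁ : Subgroup G, K₁.Characteristic ∧ K₁.FiniteIndex ∧
      ∀ a : A, a.1 ∈ A ⊓ D → TrivialMod K₁ a.1 → a ∈ V) :
    ∃ K : Subgroup G, K.Characteristic ∧ K.FiniteIndex ∧ ∀ a : A, TrivialMod K a.1 → a ∈ V := by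
  obtain ⟨K₁, h1, h2, h3⟩ := h
  have hC : (R569.CS.act A.subtype K₁).FiniteIndex := R569.CS.act_finiteIndex A.subtype K₁
  set B : Subgroup A := V ⊓ R569.CS.act A.subtype K₁ with hB
  have hBf : B.FiniteIndex := inferInstance
  obtain ⟨K₂, h4, h5, h6⟩ := hcsp (B.map A.subtype ⊔ D) (sup_fi hA B hBf) le_sup_right
  refine ⟨K₁ ⊓ K₂, inferInstance, inferInstance, fun a ha => ?_⟩
  have h7 := h6 a.1 (fun x => (ha x).2)
  rw [← SetLike.mem_coe, Subgroup.mul_normal] at h7
  obtain ⟨_, ⟨b, hb, rfl⟩, t, ht, hbt⟩ := h7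
  have hbt' : b.1 * t = a.1 := hbt
  have ht' : t = (b⁻¹ * a : A).1 := by
    show t = b.1⁻¹ * a.1
    rw [← hbt', inv_mul_cancel_left]
  have h8 : b⁻¹ * a ∈ R569.CS.act A.subtype K₁ :=
    (R569.CS.act A.subtype K₁).mul_mem ((R569.CS.act A.subtype K₁).inv_mem hb.2)
      (fun x => (ha x).1)
  have h9 : b⁻¹ * a ∈ V := h3 _ ⟨(b⁻¹ * a : A).2, ht' ▸ ht⟩ h8
  have h10 := V.mul_mem hb.1 h9
  rwa [mul_inv_cancel_left] at h10

/-- The stabilizer of `Γ`. -/
def stab (Γ : Subgroup G) : Subgroup (MulAut G) where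
  carrier := {φ | (∀ x ∈ Γ, φ x ∈ Γ) ∧ ∀ x ∈ Γ, φ⁻¹ x ∈ Γ}
  one_mem' := ⟨fun x hx => hx, fun x hx => by rw [inv_one]; exact hx⟩
  mul_mem' := fun {a b} ha hb => ⟨fun x hx => ha.1 _ (hb.1 _ hx), fun x hx => by
    rw [mul_inv_rev]
    exact hb.2 _ (ha.2 _ hx)⟩
  inv_mem' := fun {a} ha => ⟨ha.2, by rw [inv_inv]; exact ha.1⟩

theorem virtuallySolvable_torelliAnd {I : Type} (Γ : I → Subgroup G)
    (hn : ∀ i, (Γ i).Normal) (φ : MulAut G) (hφ : ∀ i, (Γ i).map φ.toMonoidHom = Γ i) (i : I) :
    VirtuallySolvableOn (TorelliAnd Γ φ) (Γ i) := by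
  refine ⟨⊤, inferInstance, 1, ?_⟩
  set S := stab (Γ i) with hS
  have hinv : V8H98.CHV.Inv S.subtype (Γ i) := fun a x hx => a.2.1 x hx
  set τ := V8H98.CHV.linRep S.subtype (Γ i) hinv with hτ
  -- the inner automorphisms
  have hconj : ∀ x, MulAut.conj x ∈ S := fun x =>
    ⟨fun y hy => (hn i).conj_mem y hy x, fun y hy => by
      rw [← map_inv]
      exact (hn i).conj_mem y hy x⁻¹⟩
  let J : Subgroup S := ((MulAut.conj : G →* MulAut G).range).comap S.subtype
  have hJ : J.Normal := by
    constructor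
    rintro a ⟨x, hx⟩ b
    refine ⟨b.1 x, ?_⟩
    have hx' : MulAut.conj x = a.1 := hx
    show MulAut.conj (b.1 x) = b.1 * a.1 * b.1⁻¹
    rw [← hx']
    ext y
    simp [MulAut.conj_apply, MulAut.mul_apply]
  have hN : (τ.ker ⊔ J).Normal := inferInstance
  have hin : ∀ a ∈ τ.ker ⊔ J, InnerOnAb (Γ i) a.1 := by
    intro a ha
    rw [← SetLike.mem_coe, Subgroup.normal_mul] at ha
    obtain ⟨ψ, hψ, ι, ⟨g, hg⟩, rfl⟩ := ha
    refine ⟨g, fun x hx => ?_⟩
    have hg' : MulAut.conj g = ι.1 := hg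
    have hy : g * x * g⁻¹ ∈ Γ i := (hn i).conj_mem x hx g
    have h1 : τ ψ (V8H98.CHV.mkA (Γ i) ⟨g * x * g⁻¹, hy⟩) =
        V8H98.CHV.mkA (Γ i) ⟨g * x * g⁻¹, hy⟩ := by
      have h2 : τ ψ = 1 := hψ
      rw [h2]
      rfl
    have h2 := V8H98.CHV.mkA_eq (Γ i) h1
    show ψ.1 (ι.1 x) * (g * x * g⁻¹)⁻¹ ∈ _
    rw [← hg']
    exact h2
  have hφS : φ ∈ S := by
    constructor
    · intro x hx
      have h1 : φ x ∈ (Γ i).map φ.toMonoidHom := ⟨x, hx, rfl⟩
      rwa [hφ i] at h1
    · intro x hx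
      have h1 : x ∈ (Γ i).map φ.toMonoidHom := by rw [hφ i]; exact hx
      obtain ⟨y, hy, hyx⟩ := h1
      have h2 : φ y = x := hyx
      have h3 : φ⁻¹ x = y := by
        rw [← h2, ← MulAut.mul_apply, inv_mul_cancel, MulAut.one_apply]
      rw [h3]
      exact hy
  set q := QuotientGroup.mk' (τ.ker ⊔ J) with hq
  have hle : TorelliAnd Γ φ ≤ ((Subgroup.zpowers (q ⟨φ, hφS⟩)).comap q).map S.subtype := by
    unfold TorelliAnd
    rw [Subgroup.closure_le]
    rintro a ((ha | ⟨x, rfl⟩) | ha)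
    · have haS : a ∈ S := by
        have ha1 : ∀ x ∈ Γ i, a x ∈ Γ i := by
          intro x hx
          have h1 := (Γ i).mul_mem ((ha i).1 x) hx
          rwa [inv_mul_cancel_right] at h1
        refine ⟨ha1, fun x hx => ?_⟩
        have h1 := (ha i).1 (a⁻¹ x)
        have h2 : a (a⁻¹ x) = x := by rw [← MulAut.mul_apply, mul_inv_cancel, MulAut.one_apply]
        rw [h2] at h1
        have h3 := (Γ i).mul_mem ((Γ i).inv_mem h1) hx
        rwa [mul_inv_rev, inv_inv, inv_mul_cancel_right] at h3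
      refine ⟨⟨a, haS⟩, ?_, rfl⟩
      have h1 : (⟨a, haS⟩ : S) ∈ τ.ker := by
        rw [MonoidHom.mem_ker]
        apply LinearMap.ext
        intro y
        obtain ⟨x, rfl⟩ := V8H98.CHV.mkA_surj (Γ i) y
        exact V8H98.CHV.mkA_of_mem (Γ i) ((ha i).2 x x.2)
      have h2 : q ⟨a, haS⟩ = 1 := (QuotientGroup.eq_one_iff _).2 (Subgroup.mem_sup_left h1)
      show q ⟨a, haS⟩ ∈ Subgroup.zpowers (q ⟨φ, hφS⟩)
      rw [h2]
      exact Subgroup.one_mem _
    · refine ⟨⟨MulAut.conj x, hconj x⟩, ?_, rfl⟩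
      have h1 : (⟨MulAut.conj x, hconj x⟩ : S) ∈ J := ⟨x, rfl⟩
      have h2 : q ⟨MulAut.conj x, hconj x⟩ = 1 :=
        (QuotientGroup.eq_one_iff _).2 (Subgroup.mem_sup_right h1)
      show q ⟨MulAut.conj x, hconj x⟩ ∈ Subgroup.zpowers (q ⟨φ, hφS⟩)
      rw [h2]
      exact Subgroup.one_mem _
    · rw [Set.mem_singleton_iff] at ha
      subst ha
      exact ⟨⟨a, hφS⟩, Subgroup.mem_zpowers _, rfl⟩
  have hsub : ∀ a ∈ TorelliAnd Γ φ, a ∈ S := fun a ha => by
    obtain ⟨a', _, rfl⟩ := hle ha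
    exact a'.2
  intro d hd
  have h1 : derivedSeries (⊤ : Subgroup (TorelliAnd Γ φ)) 1 ≤
      (τ.ker ⊔ J).comap ((Subgroup.inclusion (show TorelliAnd Γ φ ≤ S from hsub)).comp
        (Subgroup.subtype ⊤)) := by
    rw [derivedSeries_succ, derivedSeries_zero, Subgroup.commutator_le]
    intro a _ b _
    rw [Subgroup.mem_comap, map_commutatorElement]
    obtain ⟨a', ⟨k, hk⟩, ha'⟩ := hle a.1.2
    obtain ⟨b', ⟨l, hl⟩, hb'⟩ := hle b.1.2
    have ea : ((Subgroup.inclusion (show TorelliAnd Γ φ ≤ S from hsub)).comp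
        (Subgroup.subtype ⊤)) a = a' := Subtype.ext ha'.symm
    have eb : ((Subgroup.inclusion (show TorelliAnd Γ φ ≤ S from hsub)).comp
        (Subgroup.subtype ⊤)) b = b' := Subtype.ext hb'.symm
    rw [ea, eb, ← QuotientGroup.eq_one_iff]
    show q ⁅a', b'⁆ = 1
    rw [map_commutatorElement, commutatorElement_eq_one_iff_commute]
    have hk' : q a' = (q ⟨φ, hφS⟩) ^ k := hk.symm
    have hl' : q b' = (q ⟨φ, hφS⟩) ^ l := hl.symm
    rw [hk', hl']
    exact (Commute.refl _).zpow_zpow k l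
  exact hin _ (h1 hd)

end

section

variable {g : ℕ}

/-- Acting trivially on `π / [π, π]`. -/
def TorelliSet (g : ℕ) : Set (MulAut (SurfaceGroup g)) :=
  {φ | ∀ x, φ x * x⁻¹ ∈ commutator (SurfaceGroup g)}

theorem mem_torelliSet (φ : MulAut (SurfaceGroup g)) : φ ∈ TorelliSet g ↔ φ ∈ (rho g).ker := by
  constructor
  · intro h
    rw [MonoidHom.mem_ker]
    apply LinearEquiv.ext
    intro v
    obtain ⟨x, rfl⟩ := V8H98.JF.cls_surj v
    rw [rho_cls]
    have h1 := (cls_eq_zero_iff _).2 (h x)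
    rw [V8H98.JF.cls_mul, V8H98.JF.cls_inv, add_neg_eq_zero] at h1
    exact h1
  · intro h x
    exact V8H98.JF.rho_one_comm h x

theorem torelli_mul {a b : MulAut (SurfaceGroup g)} (ha : a ∈ TorelliSet g)
    (hb : b ∈ TorelliSet g) : a * b ∈ TorelliSet g := by
  rw [mem_torelliSet] at ha hb ⊢
  exact Subgroup.mul_mem _ ha hb

theorem torelli_one (g : ℕ) : (1 : MulAut (SurfaceGroup g)) ∈ TorelliSet g := by
  rw [mem_torelliSet]
  exact Subgroup.one_mem _

theorem torelli_inv {a : MulAut (SurfaceGroup g)} (ha : a ∈ TorelliSet g) :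
    a⁻¹ ∈ TorelliSet g := by
  rw [mem_torelliSet] at ha ⊢
  exact Subgroup.inv_mem _ ha

/-- The group of the automorphisms of `π` acting trivially on `π / [π, π]`, the first homology of the
surface. -/
def Torelli (g : ℕ) : Subgroup (MulAut (SurfaceGroup g)) where
  carrier := TorelliSet g
  one_mem' := torelli_one g
  mul_mem' := torelli_mul
  inv_mem' := torelli_inv

theorem torelli_eq (g : ℕ) : Torelli g = (rho g).ker := by
  ext φ
  exact mem_torelliSet φ

/-- Acting trivially on `Γ / [Γ, Γ]` for all subgroups `Γ` of index one or two of `π`. -/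
def DoubleSet (g : ℕ) : Set (MulAut (SurfaceGroup g)) :=
  {φ | ∀ Γ : Subgroup (SurfaceGroup g), (Γ.index = 1 ∨ Γ.index = 2) →
    ∀ x ∈ Γ, φ x * x⁻¹ ∈ (⁅Γ, Γ⁆ : Subgroup (SurfaceGroup g))}

theorem mem_doubleSet (φ : MulAut (SurfaceGroup g)) : φ ∈ DoubleSet g ↔ φ ∈ DD g := by
  constructor
  · intro h
    have h1 : φ ∈ Torelli g := by
      intro x
      have := h ⊤ (Or.inl Subgroup.index_top) x (Subgroup.mem_top x)
      exact this
    rw [torelli_eq] at h1
    have h2 : rho g φ = 1 := h1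
    exact mem_DD.2 ⟨h2, fun Γ => ⟨h2, h Γ.1 (Or.inr Γ.2)⟩⟩
  · intro h Γ hΓ x hx
    rw [mem_DD] at h
    rcases hΓ with h1 | h1
    · rw [Subgroup.index_eq_one] at h1
      subst h1
      exact V8H98.JF.rho_one_comm h.1 x
    · exact (h.2 ⟨Γ, h1⟩).2 x hx

theorem double_mul {a b : MulAut (SurfaceGroup g)} (ha : a ∈ DoubleSet g)
    (hb : b ∈ DoubleSet g) : a * b ∈ DoubleSet g := by
  rw [mem_doubleSet] at ha hb ⊢
  exact Subgroup.mul_mem _ ha hb

theorem double_one (g : ℕ) : (1 : MulAut (SurfaceGroup g)) ∈ DoubleSet g := by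
  rw [mem_doubleSet]
  exact Subgroup.one_mem _

theorem double_inv {a : MulAut (SurfaceGroup g)} (ha : a ∈ DoubleSet g) :
    a⁻¹ ∈ DoubleSet g := by
  rw [mem_doubleSet] at ha ⊢
  exact Subgroup.inv_mem _ ha

/-- The group of the automorphisms of `π` acting trivially on `Γ / [Γ, Γ]` for all subgroups `Γ` of
index one or two: on the first homology of the surface and of all its double covers. -/
def DoubleTorelli (g : ℕ) : Subgroup (MulAut (SurfaceGroup g)) where
  carrier := DoubleSet g
  one_mem' := double_one g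
  mul_mem' := double_mul
  inv_mem' := double_inv

/-- The classes of the elements of `π` in the first homology of the surface with coefficients in
`ℤ / 2` vanishing: the exponent sums are even. -/
def EvenSet (g : ℕ) : Set (SurfaceGroup g) := {x | ∀ i, (2 : ℤ) ∣ cls x i}

theorem even_mul {x y : SurfaceGroup g} (hx : x ∈ EvenSet g) (hy : y ∈ EvenSet g) :
    x * y ∈ EvenSet g :=
  (Mod2 g).mul_mem hx hy

theorem even_one (g : ℕ) : (1 : SurfaceGroup g) ∈ EvenSet g :=
  (Mod2 g).one_mem

theorem even_inv {x : SurfaceGroup g} (hx : x ∈ EvenSet g) : x⁻¹ ∈ EvenSet g :=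
  (Mod2 g).inv_mem hx

/-- The kernel of `π → H_1 (S; ℤ / 2)`. -/
def KerMod2 (g : ℕ) : Subgroup (SurfaceGroup g) where
  carrier := EvenSet g
  one_mem' := even_one g
  mul_mem' := even_mul
  inv_mem' := even_inv

theorem kerMod2_eq (g : ℕ) : KerMod2 g = Mod2 g := rfl

end

theorem surface_fg (g : ℕ) : Group.FG (SurfaceGroup g) :=
  QuotientGroup.fg _

theorem doubleTorelli_eq (g : ℕ) : DoubleTorelli g = DD g := by
  ext φ
  exact mem_doubleSet φ

/-- The case of genus at least four: the subgroups of finite index containing `DoubleTorelli`. -/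
theorem csp4 {g : ℕ} (hg : 4 ≤ g) (V : Subgroup (MulAut (SurfaceGroup g))) (hV : V.FiniteIndex)
    (h : DoubleTorelli g ≤ V) :
    ∃ K : Subgroup (SurfaceGroup g), K.Characteristic ∧ K.FiniteIndex ∧
      ∀ a, TrivialMod K a → a ∈ V := by
  obtain ⟨k, rfl⟩ : ∃ k, g = k + 1 := ⟨g - 1, by omega⟩
  rw [doubleTorelli_eq] at h
  exact V8H98.JF.red2 (by omega) V hV ⟨⊤, inferInstance, inferInstance, fun t ht _ => h ht⟩

/-- The case of genus at least three: the subgroups of finite index containing the Torelli group. -/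
theorem csp3 {g : ℕ} (hg : 3 ≤ g) (V : Subgroup (MulAut (SurfaceGroup g))) (hV : V.FiniteIndex)
    (h : Torelli g ≤ V) :
    ∃ K : Subgroup (SurfaceGroup g), K.Characteristic ∧ K.FiniteIndex ∧
      ∀ a, TrivialMod K a → a ∈ V := by
  have hfg := surface_fg g
  rw [torelli_eq] at h
  obtain ⟨K, h1, h2, h3⟩ := V8H98.JF.core_asm (⊤ : Subgroup (MulAut (SurfaceGroup g)))
    (fun W hW hW' => V8H98.JF.large_csp hg ⊤ (V8H98.JF.map_top g) W hW hW')
    (V.comap (Subgroup.subtype ⊤)) (R569.CS.fi_comap _ _)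
    ⟨⊤, inferInstance, inferInstance, fun a ha _ => h ha⟩
  exact ⟨K, h1, h2, fun a ha => h3 ⟨a, Subgroup.mem_top a⟩ ha⟩

instance torelli_normal (g : ℕ) : (Torelli g).Normal := by
  rw [torelli_eq]
  infer_instance

instance double_normal (g : ℕ) : (DoubleTorelli g).Normal := by
  constructor
  intro φ hφ ψ Γ hΓ x hx
  have h1 : ((Γ.comap ψ.toMonoidHom).index = 1 ∨ (Γ.comap ψ.toMonoidHom).index = 2) := by
    rwa [Subgroup.index_comap_of_surjective Γ (show Function.Surjective ψ.toMonoidHom from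
      ψ.surjective)]
  have h2 : ψ⁻¹ x ∈ Γ.comap ψ.toMonoidHom := by
    show ψ (ψ⁻¹ x) ∈ Γ
    rwa [← MulAut.mul_apply, mul_inv_cancel, MulAut.one_apply]
  have h3 := Subgroup.mem_map_of_mem ψ.toMonoidHom (hφ _ h1 _ h2)
  rw [Subgroup.map_commutator, Subgroup.map_comap_eq_self_of_surjective
    (show Function.Surjective ψ.toMonoidHom from ψ.surjective)] at h3
  have h4 : ψ (φ (ψ⁻¹ x) * (ψ⁻¹ x)⁻¹) ∈ (⁅Γ, Γ⁆ : Subgroup (SurfaceGroup g)) := h3
  have h5 : ψ (ψ⁻¹ x) = x := by rw [← MulAut.mul_apply, mul_inv_cancel, MulAut.one_apply]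
  rw [map_mul, map_inv, h5] at h4
  exact h4

/-- `DoubleTorelli` acts on the abelianization of the kernel of `π → H_1 (S; ℤ / 2)` through a finite
group. -/
theorem vs_mod2 (g : ℕ) : V8H98.CHV.VS (DD g).subtype (Mod2 g) := by
  have := surface_fg g
  obtain ⟨N, hN, h⟩ := V8H98.JF.mod2_torsion g
  refine V8H98.JF.vs_of_torsion (Mod2 g) inferInstance inferInstance (DD g)
    (fun t _ x hx => Subgroup.characteristic_iff_le_comap.1 inferInstance t hx) N hN
    (fun t ht x hx => h t (mem_DD.1 ht).1 (mem_DD.1 ht).2 x hx)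

theorem vs_sub {g : ℕ} {A B : Subgroup (MulAut (SurfaceGroup g))} (hAB : A ≤ B)
    {Γ : Subgroup (SurfaceGroup g)} (h : V8H98.CHV.VS B.subtype Γ) : V8H98.CHV.VS A.subtype Γ := by
  obtain ⟨E, hE, n, hn⟩ := h
  refine ⟨E.comap (Subgroup.inclusion hAB), R569.CS.fi_comap _ _, n, fun d hd => ?_⟩
  exact hn _ (V8H98.CHV.dser_map_le (Subgroup.inclusion hAB) (E := E) (Subgroup.map_comap_le _ _) n
    ⟨d, hd, rfl⟩)

/-- The groups `N₀` in the theorem: `Aut (π)`, `g ≥ 2`, the Torelli group, `g ≥ 3`, and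
`DoubleTorelli`, `g ≥ 4`. -/
def Controls (g : ℕ) (N₀ : Subgroup (MulAut (SurfaceGroup g))) : Prop :=
  (2 ≤ g ∧ N₀ = ⊤) ∨ (3 ≤ g ∧ N₀ = Torelli g) ∨ (4 ≤ g ∧ N₀ = DoubleTorelli g)

/-- The reduction to `N = A ∩ N₀`. -/
theorem reduction {g : ℕ} {N₀ A : Subgroup (MulAut (SurfaceGroup g))} (hN : Controls g N₀)
    (hA : (A ⊔ N₀).FiniteIndex) :
    ∀ V : Subgroup A, V.FiniteIndex →
      (∃ K₁ : Subgroup (SurfaceGroup g), K₁.Characteristic ∧ K₁.FiniteIndex ∧
        ∀ a : A, a.1 ∈ A ⊓ N₀ → TrivialMod K₁ a.1 → a ∈ V) →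
      ∃ K : Subgroup (SurfaceGroup g), K.Characteristic ∧ K.FiniteIndex ∧
        ∀ a : A, TrivialMod K a.1 → a ∈ V := by
  intro V hV h
  have hfg := surface_fg g
  rcases hN with ⟨-, rfl⟩ | ⟨hg, rfl⟩ | ⟨hg, rfl⟩
  · obtain ⟨K₁, h1, h2, h3⟩ := h
    exact ⟨K₁, h1, h2, fun a ha => h3 a ⟨a.2, Subgroup.mem_top _⟩ ha⟩
  · exact sup_red (fun W hW hW' => csp3 hg W hW hW') hA V hV h
  · exact sup_red (fun W hW hW' => csp4 hg W hW hW') hA V hV h

/-- Let `π` be the fundamental group of the closed orientable surface `S` of genus `g`.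

(1) Let `N₀` be as in `Controls`, `A` a subgroup of `Aut (π)` such that `A N₀` has finite index in
`Aut (π)`, and `N = A ∩ N₀`. Let `(Γ_i)` be a finite family of normal subgroups of finite index of `π`,
on whose abelianizations `N` is virtually solvable, and `c_i ≥ 0`. If a subgroup `V` of finite index
of `A` contains the elements of `N` acting trivially on `π / γ_{c_i+1} (Γ_i)` for all `i`, and on
`π / K₁` for some characteristic subgroup `K₁` of finite index, then it contains, for some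
characteristic subgroup `K` of finite index of `π`, all elements of `A` acting trivially on `π / K`,
and, if it contains the inner automorphisms, all elements of `A` acting as inner automorphisms on
`π / K`.

(2) Let `g ≥ 4`, `N₀ = DoubleTorelli` and let `Γ` be the kernel of `π → H_1 (S; ℤ / 2)`. This applies
to `R = γ_{c+1} (Γ)` for all `c`: the congruence subgroup problem for `Mod_S` reduces to the
automorphisms acting trivially on `π / γ_{c+1} (Γ)`.

(3) Let `g ≥ 3` and `N₀ = Torelli`. It applies to `R = γ_{c+1} (π)`: the problem reduces to the terms of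
the Johnson filtration.

(4) Let `g ≥ 2`. It applies to the group `A = N` generated by the automorphisms acting trivially
on `π / Γ_i` and `Γ_i / [Γ_i, Γ_i]` for all `i`, the inner automorphisms and an arbitrary automorphism
`φ` of `π` which preserves all `Γ_i`, and to `R = ⋂ γ_{c_i+1} (Γ_i)`. -/
theorem result (g : ℕ) :
    (∀ N₀ A : Subgroup (MulAut (SurfaceGroup g)), Controls g N₀ → (A ⊔ N₀).FiniteIndex →
      ReducesToAll A (A ⊓ N₀)) ∧
    (4 ≤ g → ∀ A : Subgroup (MulAut (SurfaceGroup g)), (A ⊔ DoubleTorelli g).FiniteIndex →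
      ∀ c : ℕ, ReducesTo A (A ⊓ DoubleTorelli g) ((KerMod2 g).lowerCentralSeries c)) ∧
    (3 ≤ g → ∀ A : Subgroup (MulAut (SurfaceGroup g)), (A ⊔ Torelli g).FiniteIndex →
      ∀ c : ℕ, ReducesTo A (A ⊓ Torelli g)
        ((⊤ : Subgroup (SurfaceGroup g)).lowerCentralSeries c)) ∧
    (2 ≤ g → GeneratedCase (SurfaceGroup g)) := by
  have hfg := surface_fg g
  refine ⟨fun N₀ A hN hA I _ Γ hn hf hVS c => reducesTo_of inf_le_left (reduction hN hA) Γ hn hf
    (fun i => toVS (hVS i)) c, fun hg A hA c => ?_, fun hg A hA c => ?_,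
    fun hg I _ Γ hn hf φ hφ c => ?_⟩
  · have h := reducesTo_of inf_le_left (reduction (Or.inr (Or.inr ⟨hg, rfl⟩)) hA)
      (fun _ : Unit => Mod2 g) (fun _ => inferInstance)
      (fun _ => inferInstance)
      (fun _ => vs_sub (A := A ⊓ DoubleTorelli g) (B := DD g)
        (by rw [doubleTorelli_eq]; exact inf_le_right) (vs_mod2 g)) (fun _ => c)
    rwa [ciInf_const, ← kerMod2_eq] at h
  · have h := reducesTo_of inf_le_left (reduction (Or.inr (Or.inl ⟨hg, rfl⟩)) hA)
      (fun _ : Unit => (⊤ : Subgroup (SurfaceGroup g)))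
      (fun _ => inferInstance) (fun _ => inferInstance)
      (fun _ => by rw [torelli_eq]; exact V8H98.JF.torelli_VS A) (fun _ => c)
    rwa [ciInf_const] at h
  · have hA : (TorelliAnd Γ φ ⊔ ⊤).FiniteIndex := by
      rw [sup_top_eq]
      infer_instance
    have h := reducesTo_of inf_le_left (reduction (A := TorelliAnd Γ φ) (Or.inl ⟨hg, rfl⟩) hA)
      Γ hn hf (fun i => by
        rw [inf_top_eq]
        exact toVS (virtuallySolvable_torelliAnd Γ hn φ hφ i)) c
    rwa [inf_top_eq] at h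

end Pool.Agent.Results.MP_59b15d_al.DoubleCovers
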