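import Pool.Agent.V8H21.MCG.Pul4

/-!
# Congruence subgroups and mapping classes which lift to finite covers

Let `O` be the fundamental group of a closed orientable orbifold of genus `h` with cone points
`z_1, …, z_n` of orders `m_1, …, m_n` and with a negative Euler characteristic, and let `S'` be a
finite cover of the orbifold, regular or not, which is a closed surface: its fundamental group `π'` is
a torsion-free subgroup of finite index of `O`. (If it is normal, then `S' → S' / G` is the quotient
by an arbitrary finite group `G` of orientation-preserving mapping classes; for `n = 0` the cover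
`S' → S` is an unramified cover of closed surfaces.) The mapping classes of `S'` which are lifts of
mapping classes of the orbifold (Birman and Hilden) are the classes of the automorphisms of `π'` which
are restrictions of automorphisms of `O`.

1. On this group the congruence topologies of `S'` and of the orbifold agree.
2. Hence this subgroup of `Mod_{S'}` has the congruence subgroup property if and only if the outer
   automorphism group of `O` has it. In particular the property is the same for all `S'` which cover
   the same orbifold. For `n = 0` the outer automorphism group of `O` is `Mod_S`, so the congruence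
   subgroup property of `Mod_S` is equivalent to that of the group of the lifts, for every finite
   unramified cover `S' → S`.
3. The elements of suitable congruence subgroups of `S'` fix the cone points, and act trivially on a
   prescribed finite quotient of `O` with the base point `z_j`, up to the rotation about `z_j`. In
   group theoretic terms: modulo subgroups of finite index, the conjugates of the generators `x_j` and
   of their powers are different, and the centralizer of `x_j` is generated by `x_j`.
4. For every `j` let `O'` be the group of an orbifold obtained by removing the cone point `z_j` and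
   replacing the orders of the other ones by divisors (for `h ≥ 2` it can be the fundamental group of
   the underlying surface). If an element of a suitable congruence subgroup of `S'` acts on `O'` by
   pushing `z_j` along a loop, then the loop lies in a prescribed subgroup of finite index of `O'`. So
   all finite-index subgroups of the surface groups of Atiyah and Kodaira in the mapping class group
   of `S'` contain the intersection with a congruence subgroup.
5. The congruence subgroup property passes from `O'` to `O` along the exact sequence of Birman. Let `A`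
   be a group of automorphisms of `O` which map all `x_i` to conjugates, let it contain the inner ones
   and the pushes of `z_j` along the loops in a subgroup of finite index of `O'` (if `A` consists of all
   automorphisms which map all `x_i` to conjugates, it contains all pushes, which is proved here by
   explicit formulas), and let `A'` be the group induced by `A` on `O'`. If `A'`
   has the congruence subgroup property then so has `A`, for the subgroups `H` which contain the elements
   of `A` acting trivially on `O'` with the base point `z_j` (by the theorem of Dehn, Nielsen and Baer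
   these are the rotations about `z_j`, which are inner, so that this is no restriction on `H`). If one
   repeats this, the property for closed surfaces of genus `h` implies the property for the orbifolds,
   and by (2) for the groups of lifts to their finite covers.
-/

set_option autoImplicit false

namespace Pool.Agent.Results.MP_59b15d_al.FiniteCovers

open Pool.Agent.V8H21.MCG

/-- The definition of the fundamental group `SurfaceGroup g` of the closed orientable surface of genus
`g`: generators `a_i, b_i` (`inl i`, `inr i`) and the relator `rel g = [a_1, b_1] ⋯ [a_g, b_g]`. -/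
theorem surfaceGroup_def (g : ℕ) :
    SurfaceGroup g = PresentedGroup ({rel g} : Set (FreeGroup (Fin g ⊕ Fin g))) ∧
      rel g = (List.ofFn (fun i : Fin g =>
        FreeGroup.of (Sum.inl i : Fin g ⊕ Fin g) * FreeGroup.of (Sum.inr i : Fin g ⊕ Fin g) *
        (FreeGroup.of (Sum.inl i : Fin g ⊕ Fin g))⁻¹ *
        (FreeGroup.of (Sum.inr i : Fin g ⊕ Fin g))⁻¹)).prod := ⟨rfl, rfl⟩

/-- The definition of the fundamental group `Orb h n m` of the orbifold of genus `h` with `n` cone
points of orders `m j`: generators `a_i, b_i` (`inl u`) and `x_j` (`inr j`), and the relators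
`[a_1, b_1] ⋯ [a_h, b_h] (x_1 ⋯ x_n)⁻¹` and `x_j ^ m_j`. -/
theorem orb_def (h n : ℕ) (m : Fin n → ℕ) :
    Orb h n m = PresentedGroup (orels h n m) ∧
      orels h n m = {x | x = FreeGroup.map Sum.inl (rel h) *
        ((List.ofFn (fun j : Fin n => (FreeGroup.of (Sum.inr j) :
          FreeGroup ((Fin h ⊕ Fin h) ⊕ Fin n)))).prod)⁻¹ ∨
        ∃ j : Fin n, x = FreeGroup.of (Sum.inr j) ^ m j} ∧
      ∀ j, cone h n m j = PresentedGroup.of (Sum.inr j) := ⟨rfl, rfl, fun _ => rfl⟩

/-- A finite cover, by the closed surface of genus `g'`, of the orbifold of genus `h` with cone points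
of orders `m j`: the fundamental group of the surface contains no torsion elements of `O`. -/
structure Cover (g' h n : ℕ) (m : Fin n → ℕ) where
  /-- the inclusion of the fundamental groups -/
  ι : SurfaceGroup g' →* Orb h n m
  injective : Function.Injective ι
  finite : ι.range.FiniteIndex
  torsionFree : ∀ j k y, y * cone h n m j ^ k * y⁻¹ ∈ ι.range → m j ∣ k

variable {g' h n : ℕ} {m : Fin n → ℕ}

/-- The Euler characteristic `2 - 2 h - ∑ (1 - 1 / m j)` of the orbifold is negative. -/
def Hyperbolic (h n : ℕ) (m : Fin n → ℕ) : Prop :=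
  (∑ j, (1 : ℚ) / (m j)) < ((2 * h + n : ℕ) : ℚ) - 2

/-- `φ'` is the restriction of `φ`. -/
def Restricts (C : Cover g' h n m) (φ : MulAut (Orb h n m)) (φ' : MulAut (SurfaceGroup g')) : Prop :=
  ∀ a, φ (C.ι a) = C.ι (φ' a)

/-- `φ` acts modulo `Γ` as the inner automorphism of `y`. -/
def InnerBy {G : Type} [Group G] (Γ : Subgroup G) (φ : MulAut G) (y : G) : Prop :=
  ∀ x : G, φ x * (y * x * y⁻¹)⁻¹ ∈ Γ

/-- The congruence topologies of the covering surface and of the orbifold agree. -/
def SameTopology (C : Cover g' h n m) : Prop :=
  (∀ L : Subgroup (Orb h n m), L.Normal → L.FiniteIndex →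
    ∃ K : Subgroup (SurfaceGroup g'), K.Characteristic ∧ K.FiniteIndex ∧
      ∀ φ φ', Restricts C φ φ' → ∀ z, InnerBy K φ' z → InnerBy L φ (C.ι z)) ∧
  ∀ K : Subgroup (SurfaceGroup g'), K.FiniteIndex →
    ∃ L : Subgroup (Orb h n m), L.Characteristic ∧ L.FiniteIndex ∧
      ∀ φ φ', Restricts C φ φ' → ∀ z, InnerBy L φ (C.ι z) → InnerBy K φ' z

/-- `f` is the natural homomorphism: it maps the generators `a_i`, `b_i`, `x_j` to the generators
with the same names. -/
def Natural {m m' : Fin n → ℕ} (f : Orb h n m →* Orb h n m') : Prop :=
  ∀ u, f (PresentedGroup.of u) = PresentedGroup.of u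

/-- If the numbers `m' i` divide the numbers `m i`, there is a natural homomorphism. -/
theorem exists_natural {m m' : Fin n → ℕ} (hd : ∀ i, m' i ∣ m i) :
    ∃ f : Orb h n m →* Orb h n m', Natural f := exists_red hd

/-- The cone points are fixed, and the actions on the orbifold group with the base point `z_j` are
trivial modulo `N` up to the rotation about `z_j`: if `φ (x_j) = w x_i ^ e w⁻¹` with `e` prime to
`m i`, then `i = j`, `x_i ^ e = x_j`, and `φ` is modulo `N` the inner automorphism of `w x_j ^ a` for
some `a`. -/
def PointedClasses (C : Cover g' h n m) : Prop :=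
  ∀ (j : Fin n) (N : Subgroup (Orb h n m)), N.Normal → N.FiniteIndex →
    ∃ K : Subgroup (SurfaceGroup g'), K.Characteristic ∧ K.FiniteIndex ∧
      ∀ φ φ', Restricts C φ φ' → (∃ z, InnerBy K φ' z) →
        ∀ i e w, Nat.Coprime e (m i) → φ (cone h n m j) = w * cone h n m i ^ e * w⁻¹ →
          i = j ∧ e ≡ 1 [MOD m j] ∧ ∃ a : ℤ, InnerBy N φ (w * cone h n m j ^ a)

/-- Let the cone point `z_j` be removed. If the action on the orbifold group based at `z_j` is the
inner automorphism of `γ`, then `γ` lies in `V`. -/
def PointPushing (C : Cover g' h n m) : Prop :=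
  ∀ (m' : Fin n → ℕ) (f : Orb h n m →* Orb h n m'), Natural f → (∀ i, m' i ∣ m i) →
    Hyperbolic h n m' → ∀ j, m' j = 1 →
    ∀ V : Subgroup (Orb h n m'), V.FiniteIndex →
      ∃ K : Subgroup (SurfaceGroup g'), K.Characteristic ∧ K.FiniteIndex ∧
        ∀ φ φ', Restricts C φ φ' → (∃ z, InnerBy K φ' z) →
          ∀ w γ, φ (cone h n m j) = w * cone h n m j * w⁻¹ →
            (∀ y, f (φ y) = f w * (γ * f y * γ⁻¹) * (f w)⁻¹) → γ ∈ V

/-- The congruence subgroup property of the outer automorphism group. -/
def CongruenceProperty (G : Type) [Group G] : Prop :=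
  ∀ H : Subgroup (MulAut G), H.FiniteIndex → (∀ x : G, MulAut.conj x ∈ H) →
    ∃ Γ : Subgroup G, Γ.Characteristic ∧ Γ.FiniteIndex ∧
      ∀ φ : MulAut G, (∃ y, InnerBy Γ φ y) → φ ∈ H

/-- The group of the automorphisms of the fundamental group of the covering surface which are
restrictions of automorphisms of the orbifold group. -/
def Symmetric (C : Cover g' h n m) : Subgroup (MulAut (SurfaceGroup g')) := SymP C.ι

theorem mem_symmetric (C : Cover g' h n m) (φ' : MulAut (SurfaceGroup g')) :
    φ' ∈ Symmetric C ↔ ∃ φ, Restricts C φ φ' := Iff.rfl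

/-- The congruence subgroup property of the group of the symmetric mapping classes. -/
def SymmetricProperty (C : Cover g' h n m) : Prop :=
  ∀ H : Subgroup (MulAut (SurfaceGroup g')), (H.subgroupOf (Symmetric C)).FiniteIndex →
    (∀ x, MulAut.conj x ∈ H) →
      ∃ K : Subgroup (SurfaceGroup g'), K.Characteristic ∧ K.FiniteIndex ∧
        ∀ φ' ∈ Symmetric C, (∃ z, InnerBy K φ' z) → φ' ∈ H

/-- The congruence subgroup property of the group of outer automorphisms given by `A`, for the subgroups
`H` which satisfy `P`. -/
def RelativeProperty {G : Type} [Group G] (A : Subgroup (MulAut G))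
    (P : Subgroup (MulAut G) → Prop) : Prop :=
  ∀ H : Subgroup (MulAut G), (H.subgroupOf A).FiniteIndex → (∀ x, MulAut.conj x ∈ H) → P H →
    ∃ Γ : Subgroup G, Γ.Characteristic ∧ Γ.FiniteIndex ∧
      ∀ φ ∈ A, (∃ y, InnerBy Γ φ y) → φ ∈ H

/-- The group of the automorphisms of `O'` which are induced by elements of `A`. -/
def Induced {m' : Fin n → ℕ} (f : Orb h n m →* Orb h n m') (A : Subgroup (MulAut (Orb h n m))) :
    Subgroup (MulAut (Orb h n m')) := ind f A

theorem mem_induced {m' : Fin n → ℕ} (f : Orb h n m →* Orb h n m')
    (A : Subgroup (MulAut (Orb h n m))) (ψ : MulAut (Orb h n m')) :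
    ψ ∈ Induced f A ↔ ∃ φ ∈ A, ∀ y, f (φ y) = ψ (f y) := Iff.rfl

/-- The group of the loops along which the cone point `z_j` is pushed by elements of `A`. -/
def Loops {m' : Fin n → ℕ} (f : Orb h n m →* Orb h n m') (j : Fin n)
    (A : Subgroup (MulAut (Orb h n m))) : Subgroup (Orb h n m') := push f (cone h n m j) A

theorem mem_loops {m' : Fin n → ℕ} (f : Orb h n m →* Orb h n m') (j : Fin n)
    (A : Subgroup (MulAut (Orb h n m))) (c : Orb h n m') :
    c ∈ Loops f j A ↔ ∃ φ ∈ A, φ (cone h n m j) = cone h n m j ∧ ∀ y, f (φ y) = c * f y * c⁻¹ :=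
  Iff.rfl

/-- `A` contains the inner automorphisms, and its elements map every `x_i` to a conjugate. -/
def Pure (A : Subgroup (MulAut (Orb h n m))) : Prop :=
  (∀ y, MulAut.conj y ∈ A) ∧
    ∀ φ ∈ A, ∀ i, ∃ w, φ (cone h n m i) = w * cone h n m i * w⁻¹

/-- `H` contains the elements of `A` which act trivially on `O'` with the base point `z_j`. -/
def ContainsTrivial {m' : Fin n → ℕ} (f : Orb h n m →* Orb h n m') (j : Fin n)
    (A H : Subgroup (MulAut (Orb h n m))) : Prop :=
  ∀ φ ∈ A, φ (cone h n m j) = cone h n m j → (∀ y, f (φ y) = f y) → φ ∈ H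

/-- The congruence subgroup property passes from `O'` to `O`. -/
def BirmanSequence (h n : ℕ) (m : Fin n → ℕ) : Prop :=
  ∀ (m' : Fin n → ℕ) (f : Orb h n m →* Orb h n m'), Natural f → (∀ i, m' i ∣ m i) →
    Hyperbolic h n m' → ∀ j, m' j = 1 →
    ∀ A : Subgroup (MulAut (Orb h n m)), Pure A → (Loops f j A).FiniteIndex →
      RelativeProperty (Induced f A) (fun _ => True) →
      RelativeProperty A (ContainsTrivial f j A)

/-- The group of all automorphisms which map every `x_i` to a conjugate. -/
def AllPure (h n : ℕ) (m : Fin n → ℕ) : Subgroup (MulAut (Orb h n m)) := pureAll h n m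

theorem mem_allPure (φ : MulAut (Orb h n m)) :
    φ ∈ AllPure h n m ↔ ∀ i, ∃ w, φ (cone h n m i) = w * cone h n m i * w⁻¹ := Iff.rfl

/-- The cone point `z_j` can be pushed along all loops. -/
def PushesExist (h n : ℕ) (m : Fin n → ℕ) : Prop :=
  ∀ (m' : Fin n → ℕ) (f : Orb h n m →* Orb h n m'), Natural f → (∀ i, m' i ∣ m i) →
    ∀ j, m' j = 1 → Loops f j (AllPure h n m) = ⊤

theorem result :
    (∀ (g' h n : ℕ) (m : Fin n → ℕ) (C : Cover g' h n m), (∀ j, 2 ≤ m j) → Hyperbolic h n m →
      SameTopology C ∧
        (CongruenceProperty (Orb h n m) ↔ SymmetricProperty C) ∧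
        PointedClasses C ∧ PointPushing C) ∧
    (∀ (h : ℕ) (m : Fin 0 → ℕ), CongruenceProperty (SurfaceGroup h) ↔
      CongruenceProperty (Orb h 0 m)) ∧
    ∀ (h n : ℕ) (m : Fin n → ℕ), (∀ j, 2 ≤ m j) → Hyperbolic h n m →
      BirmanSequence h n m ∧ PushesExist h n m := by
  refine ⟨?_, fun h m => ⟨fun hG => csp_zero h m hG, fun hG => csp_zero' h m hG⟩,
    fun h n m hm hyp => ⟨fun m' f hnat hd hyp' j hj A hA hL hcsp =>
      birman_orb hm hd hyp hyp' f hnat j hj A hA.1 hA.2 hL hcsp,
      fun m' f hnat hd j hj => push_top hd f hnat j hj⟩⟩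
  intro g' h n m C hm hyp
  have hm0 : ∀ j, m j ≠ 0 := fun j => by have := hm j; omega
  have htf : ∀ j k, cone h n m j ^ k ∈ C.ι.range → m j ∣ k := fun j k hjk =>
    C.torsionFree j k 1 (by rw [one_mul, inv_one, mul_one]; exact hjk)
  refine ⟨⟨?_, ?_⟩, ⟨?_, ?_⟩, ?_, ?_⟩
  · intro L hL1 hL2
    obtain ⟨K, h1, h2, h3⟩ := topology3 C.ι hm0 hyp C.finite htf L hL1 hL2
    exact ⟨K, h1, h2, fun φ φ' hφ z hz y => h3 φ φ' hφ z hz y⟩
  · intro K hK
    exact topology_conv C.ι C.injective C.finite K
  · intro hcsp H hH hinn
    obtain ⟨K, h1, h2, h3⟩ := transfer3 C.ι hm0 hyp C.injective C.finite htf hcsp H hH hinn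
    exact ⟨K, h1, h2, fun φ' ⟨φ, hφ⟩ hz => h3 φ φ' hφ hz⟩
  · intro hsym
    have hfgO := orb_fg h n m
    exact transfer_conv3 C.ι C.injective C.finite
      (effective3 C.ι hm0 hyp C.injective C.finite htf) hsym
  · intro j N hN1 hN2
    obtain ⟨K, h1, h2, h3⟩ := pointed5 C.ι hm hyp C.finite htf N j
    exact ⟨K, h1, h2, fun φ φ' hφ hz i e w he hw => h3 φ φ' hφ hz i e w he hw⟩
  · intro m' f hnat hd hyp' j hj V hV
    obtain ⟨T, hT1, hT2, hT3⟩ := exists_tf (m := m') (fun i hi => by
      have h1 := hd i
      rw [hi, zero_dvd_iff] at h1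
      exact hm0 i h1) hyp'
    obtain ⟨K, h1, h2, h3⟩ := pushing4 C.ι f hnat hm hd hyp hyp' C.finite htf j hj
      (V.normalCore ⊓ T) (fun i k hik => hT3 i k hik.2)
    exact ⟨K, h1, h2, fun φ φ' hφ hz w γ hw hγ =>
      V.normalCore_le (h3 φ φ' hφ hz w hw γ hγ).1⟩

end Pool.Agent.Results.MP_59b15d_al.FiniteCovers
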