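import Pool.Agent.V8H21.MCG.Gau

/-!
# Mapping class groups, extensions of surface groups by finite groups and twisted
Dijkgraaf-Witten theories

Let `π` be the fundamental group of a closed orientable surface of genus `g ≥ 2` and let `Γ n` be the
intersection of the kernels of all homomorphisms from `π` to the symmetric group of degree `n`, a
characteristic subgroup of finite index. An automorphism of `π` whose class in `Mod_S = Out (π)` is in
the congruence subgroup of `Γ n` acts on `π / Γ n` as an inner automorphism.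

(1) Such automorphisms, after composition with an inner automorphism of `π`, lift to automorphisms of
all extensions of `π` by finite groups `N`, trivial on `N` and compatible with all homomorphisms of the
extension to finite groups `G`, if `n` is large in terms of the orders of `N` and `G`.

(2) They fix all gauge classes of fields `(ρ, η)`, where `ρ` is a homomorphism from `π` to a finite
group `G` and `η` is a trivialisation of the pullback of a three-cocycle `ω` of `G` with values in a
finite `G`-module `A`, if `n` is large in terms of the orders of `G` and `A`. Every `ρ` has such a `η`.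

(3) The same for a divisible abelian group of coefficients with trivial action, such as the circle
(then `n` depends on `ω`): this is Dijkgraaf-Witten theory twisted by `ω`.
-/

set_option autoImplicit false

namespace Pool.Agent.Results.MP_59b15d_al.TwistedGaugeTheories

open Pool.Agent.V8H21.MCG

/-- The definition of the fundamental group `SurfaceGroup g` of the closed orientable surface of genus
`g`: generators `a_i, b_i` (`inl i`, `inr i`) and the relator `rel g = [a_1, b_1] ⋯ [a_g, b_g]`. -/
theorem surfaceGroup_def (g : ℕ) :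
    SurfaceGroup g = PresentedGroup ({rel g} : Set (FreeGroup (Fin g ⊕ Fin g))) ∧
      rel g = (List.ofFn (fun i : Fin g =>
        FreeGroup.of (Sum.inl i : Fin g ⊕ Fin g) * FreeGroup.of (Sum.inr i : Fin g ⊕ Fin g) *
        (FreeGroup.of (Sum.inl i : Fin g ⊕ Fin g))⁻¹ *
        (FreeGroup.of (Sum.inr i : Fin g ⊕ Fin g))⁻¹)).prod := ⟨rfl, rfl⟩

/-- The intersection of the kernels of the homomorphisms to the symmetric group of degree `n`. -/
def Gam (g n : ℕ) : Subgroup (SurfaceGroup g) :=
  ⨅ f : SurfaceGroup g →* Equiv.Perm (Fin n), f.ker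

/-- `φ` acts as an inner automorphism modulo `K`. -/
def InnerMod {g : ℕ} (K : Subgroup (SurfaceGroup g)) (φ : MulAut (SurfaceGroup g)) : Prop :=
  ∃ y : SurfaceGroup g, ∀ x : SurfaceGroup g, φ x * (y * x * y⁻¹)⁻¹ ∈ K

/-- The number `(a (a!)²)! b`. -/
def degree (a b : ℕ) : ℕ := (a * (a.factorial * a.factorial)).factorial * b

section fields

variable {G A : Type} [Group G] [AddCommGroup A]

/-- `ω` is a three-cocycle of `G` with values in `A`, with the action `a` of `G` on `A`. -/
def IsCocycle (a : G →* AddMonoid.End A) (ω : G → G → G → A) : Prop :=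
  ∀ x y z t, a x (ω y z t) - ω (x * y) z t + ω x (y * z) t - ω x y (z * t) + ω x y z = 0

/-- `(ρ, η)` is a field: the coboundary of `η` is the pullback of `ω` by `ρ`. -/
def IsField {g : ℕ} (a : G →* AddMonoid.End A) (ω : G → G → G → A) (ρ : SurfaceGroup g →* G)
    (η : SurfaceGroup g → SurfaceGroup g → A) : Prop :=
  ∀ x y z, a (ρ x) (η y z) - η (x * y) z + η x (y * z) - η x y = ω (ρ x) (ρ y) (ρ z)

/-- The value of `ω` on the prism given by `h` over `(x, y)`. -/
def prism (ω : G → G → G → A) (h x y : G) : A :=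
  ω h x y - ω (h * x * h⁻¹) h y + ω (h * x * h⁻¹) (h * y * h⁻¹) h

/-- `(ρ', η')` is the transform of `(ρ, η)` by a gauge transformation: conjugation by `h` and addition
of the coboundary of a function `l`. -/
def GaugeEquivalent {g : ℕ} (a : G →* AddMonoid.End A) (ω : G → G → G → A) (ρ : SurfaceGroup g →* G)
    (η : SurfaceGroup g → SurfaceGroup g → A) (ρ' : SurfaceGroup g →* G)
    (η' : SurfaceGroup g → SurfaceGroup g → A) : Prop :=
  ∃ (h : G) (l : SurfaceGroup g → A), (∀ x, ρ' x = h * ρ x * h⁻¹) ∧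
    ∀ x y, η' x y = a h (η x y) - prism ω h (ρ x) (ρ y) +
      (a (ρ' x) (l y) - l (x * y) + l x)

/-- `φ` maps every field to a gauge equivalent one. -/
def FixesFields {g : ℕ} (a : G →* AddMonoid.End A) (ω : G → G → G → A) (φ : MulAut (SurfaceGroup g)) :
    Prop :=
  ∀ (ρ : SurfaceGroup g →* G) (η : SurfaceGroup g → SurfaceGroup g → A), IsField a ω ρ η →
    GaugeEquivalent a ω ρ η (ρ.comp φ.toMonoidHom) (fun x y => η (φ x) (φ y))

/-- the action as a structure -/
def toAct (a : G →* AddMonoid.End A) : Act G A where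
  s x b := a x b
  one b := by
    rw [map_one]
    rfl
  mul x y b := by
    rw [map_mul]
    rfl
  add x b b' := map_add (a x) b b'

end fields

/-- Automorphisms acting as inner ones modulo `Gam g n` for large `n` lift to all extensions with
finite kernel and fix the gauge classes of all fields. -/
theorem result (g : ℕ) (hg : 2 ≤ g) :
    (∀ n : ℕ, (Gam g n).Characteristic ∧ (Gam g n).FiniteIndex ∧
      ∀ K : Subgroup (SurfaceGroup g), K.index ≠ 0 → K.index ≤ n → Gam g n ≤ K) ∧
    (∀ (N G : Type) [Group N] [Finite N] [Group G] [Finite G] (φ : MulAut (SurfaceGroup g)),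
      InnerMod (Gam g (degree (Nat.card N) (Nat.card G))) φ → ∃ y : SurfaceGroup g,
        ∀ (E : Type) [Group E] (ι : N →* E) (p : E →* SurfaceGroup g) (κ : E →* G),
          Function.Injective ι → Function.Surjective p → ι.range = p.ker →
            ∃ Φ : MulAut E, (∀ n, Φ (ι n) = ι n) ∧ (∀ e, p (Φ e) = y⁻¹ * φ (p e) * y) ∧
              ∀ e, κ (Φ e) = κ e) ∧
    (∀ (G A : Type) [Group G] [Finite G] [AddCommGroup A] [Finite A] (a : G →* AddMonoid.End A)
      (ω : G → G → G → A), IsCocycle a ω →
        (∀ ρ : SurfaceGroup g →* G, ∃ η, IsField a ω ρ η) ∧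
        ∀ φ : MulAut (SurfaceGroup g),
          InnerMod (Gam g (degree (Nat.card A ^ Nat.card G)
            (Nat.card A ^ (Nat.card G * Nat.card G) * Nat.card G))) φ → FixesFields a ω φ) ∧
    ∀ (G D : Type) [Group G] [Finite G] [AddCommGroup D],
      (∀ n : ℕ, n ≠ 0 → ∀ d : D, ∃ e : D, n • e = d) →
      ∀ ω : G → G → G → D, IsCocycle 1 ω →
        (∀ ρ : SurfaceGroup g →* G, ∃ η, IsField 1 ω ρ η) ∧
        ∃ n : ℕ, ∀ φ : MulAut (SurfaceGroup g), InnerMod (Gam g n) φ → FixesFields 1 ω φ := by
  -- composition with an inner automorphism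
  have hin : ∀ (n : ℕ) (φ : MulAut (SurfaceGroup g)), InnerMod (Gam g n) φ →
      ∃ (y : SurfaceGroup g) (ψ : MulAut (SurfaceGroup g)), (∀ x, φ x = y * ψ x * y⁻¹) ∧
        ∀ x, ψ x * x⁻¹ ∈ cker (SurfaceGroup g) n := by
    rintro n φ ⟨y, hy⟩
    have h1 : ∀ x, ((MulAut.conj y)⁻¹ * φ) x = y⁻¹ * φ x * y := fun x => by
      rw [MulAut.mul_apply, MulAut.conj_inv_apply]
    refine ⟨y, (MulAut.conj y)⁻¹ * φ, fun x => ?_, fun x => ?_⟩
    · rw [h1]
      group
    · rw [h1]
      have h2 := (inferInstance : (cker (SurfaceGroup g) n).Normal).conj_mem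
        _ (hy x) y⁻¹
      have h3 : y⁻¹ * (φ x * (y * x * y⁻¹)⁻¹) * y⁻¹⁻¹ = y⁻¹ * φ x * y * x⁻¹ := by group
      rwa [h3] at h2
  refine ⟨fun n => ⟨cker_char _ n, ?_, fun K h0 hn => cker_le K h0 hn⟩, ?_, ?_, ?_⟩
  · have := surface_fg g
    exact cker_fin (Pool.Agent.V8H21.MCG.SurfaceGroup g) n
  · intro N G _ _ _ _ φ hφ
    obtain ⟨y, ψ, h1, h2⟩ := hin _ φ hφ
    refine ⟨y, fun E _ ι p κ hι hp hr => ?_⟩
    have h3 : degree (Nat.card N) (Nat.card G) = deg N G := (deg_eq N G).symm
    rw [h3] at h2
    obtain ⟨Φ, h4, h5, h6⟩ := lift_main hg N G ψ h2 E ι p κ hι hp hr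
    refine ⟨Φ, h4, fun e => ?_, h6⟩
    rw [h5, h1]
    group
  · intro G A _ _ _ _ a ω hω
    refine ⟨fun ρ => ?_, fun φ hφ ρ η hη => ?_⟩
    · obtain ⟨g, rfl⟩ := Nat.exists_eq_add_of_le' hg
      exact exists_field (toAct a) (ω := ω) hω ρ
    · obtain ⟨y, ψ, h1, h2⟩ := hin _ φ hφ
      obtain ⟨h3, l, h4⟩ := field_main (toAct a) hg (ω := ω) hω ψ h2 ρ η hη
      exact ge_of (toAct a) (ω := ω) hη φ ψ y h1 h3 l h4
  · intro G D _ _ _ hD ω hω
    obtain ⟨n, h1, h2⟩ := circle_main hg hD ω hω
    refine ⟨h1, n, fun φ hφ ρ η hη => ?_⟩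
    obtain ⟨y, ψ, h3, h4⟩ := hin _ φ hφ
    obtain ⟨h5, l, h6⟩ := h2 ψ h4 ρ η hη
    exact ge_of (triv G D) (ω := ω) hη φ ψ y h3 h5 l h6

end Pool.Agent.Results.MP_59b15d_al.TwistedGaugeTheories
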